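import Pool.Agent.H.MP_80ce29_pr.BaireM
import Pool.Agent.H.MP_80ce29_pr.Dens
import Pool.Agent.H.MP_80ce29_pr.Ineq2

/-!
# Poisson mirrors: the two thresholds agree for generic laws

See `Pool/Agent/H/MP_80ce29_pr/Defs.lean` (mirrors, light rays) and
`Pool/Agent/H/MP_80ce29_pr/Model0.lean` (the Poisson model) for the definitions.
-/

open Set MeasureTheory Complex Filter Topology Mir
open scoped ComplexConjugate ENNReal

namespace Pool.Agent.Results.MP_80ce29_pr.GenericMirrors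

/-- The open sets of the Baire argument. -/
private theorem exists_gdelta : ∃ G : Set (ProbabilityMeasure Circle), IsGδ G ∧
    (∀ (μ : ProbabilityMeasure Circle) (ζ : Circle),
      (∀ᵐ w ∂(μ : Measure Circle), ∃ n : ℕ, 0 < n ∧ (ζ * w) ^ n = 1) → μ ∈ G) ∧
    ∀ μ ∈ G, ∀ ε : ℝ, 0 < ε → AllEscape μ ε := by
  let O : ℕ × ℕ × {q : ℚ × ℚ // 0 < q.1} → Set (ProbabilityMeasure Circle) := fun x =>
    {μ | ∀ ε ∈ Icc (x.2.2.1.1 : ℝ) (x.2.2.1.2 : ℝ),
      1 - ((x.2.1 : ℝ≥0∞) + 1)⁻¹ < fR x.1 μ ε + gG μ ε}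
  have hO : ∀ x, IsOpen (O x) := fun x =>
    isOpen_all (T := ProbabilityMeasure Circle) (κ := id) continuous_id x.1 _ _ _
  refine ⟨⋂ x, O x, IsGδ.iInter_of_isOpen hO, ?_, ?_⟩
  · intro μ ζ hμ
    refine mem_iInter.2 fun x => ?_
    intro ε hε
    have hq : (0 : ℝ) < x.2.2.1.1 := by exact_mod_cast x.2.2.2
    have hε0 : 0 < ε := lt_of_lt_of_le hq hε.1
    refine lt_of_lt_of_le ?_ (one_le_of_coset hμ hε0 x.1)
    exact ENNReal.sub_lt_self ENNReal.one_ne_top one_ne_zero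
      (ENNReal.inv_ne_zero.2 (by finiteness))
  · intro μ hμ ε hε
    refine allEscape_of_ineq fun m => ?_
    obtain ⟨a, ha0, haε⟩ := exists_rat_btwn hε
    obtain ⟨b, hεb, -⟩ := exists_rat_btwn (lt_add_one ε)
    have ha : 0 < a := by exact_mod_cast ha0
    have key : ∀ k : ℕ, 1 - ((k : ℝ≥0∞) + 1)⁻¹ ≤ fR m μ ε + gG μ ε := by
      intro k
      have h := mem_iInter.1 hμ (m, k, ⟨(a, b), ha⟩)
      exact (h ε ⟨haε.le, hεb.le⟩).le
    have hlim : Tendsto (fun k : ℕ => (1 : ℝ≥0∞) - ((k : ℝ≥0∞) + 1)⁻¹) atTop (𝓝 (1 - 0)) := by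
      refine ENNReal.Tendsto.sub tendsto_const_nhds ?_ (Or.inl ENNReal.one_ne_top)
      have h1 : Tendsto (fun k : ℕ => ((k + 1 : ℕ) : ℝ≥0∞)⁻¹) atTop (𝓝 0) :=
        ENNReal.tendsto_inv_nat_nhds_zero.comp (tendsto_add_atTop_nat 1)
      simpa using h1
    rw [tsub_zero] at hlim
    exact le_of_tendsto' hlim key

/-- There is a `G_δ` set `G` of laws on the circle of directions `w = exp (2 i θ)` which contains
every law concentrated on a coset of the roots of unity (angles in `θ₀ + π ℚ`), which is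
residual in the space of all laws and in the space of all `n`-tuples of directions with given
weights, such that for all `μ ∈ G` and all lengths `ε > 0`, almost surely, if the component of `0`
is unbounded then almost all rays from `0` are unbounded; so the two critical lengths are
equal. -/
theorem result : ∃ G : Set (ProbabilityMeasure Circle), IsGδ G ∧
    (∀ (μ : ProbabilityMeasure Circle) (ζ : Circle),
      (∀ᵐ w ∂(μ : Measure Circle), ∃ n : ℕ, 0 < n ∧ (ζ * w) ^ n = 1) → μ ∈ G) ∧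
    (∀ᶠ μ in residual (ProbabilityMeasure Circle), μ ∈ G) ∧
    (∀ (n : ℕ) (p : Fin n → NNReal) (hp : ∑ j, p j = 1),
      ∀ᶠ w in residual (Fin n → Circle), mixLaw p hp w ∈ G) ∧
    ∀ μ ∈ G, (∀ ε : ℝ, 0 < ε → AllEscape μ ε) ∧ epsC' μ = epsC μ := by
  obtain ⟨G, hG, hr, hE⟩ := exists_gdelta
  have hrat : ∀ μ, IsRat μ → μ ∈ G := by
    rintro μ ⟨N, hN, hμ⟩
    refine hr μ 1 ?_
    filter_upwards [hμ] with w hw
    exact ⟨N, hN, by rw [one_mul]; exact hw⟩
  refine ⟨G, hG, hr, ?_, ?_, fun μ hμ => ⟨hE μ hμ, epsC_eq (hE μ hμ)⟩⟩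
  · exact residual_of_dense_Gδ hG (dense_isRat.mono fun μ hμ => hrat μ hμ)
  · intro n p hp
    exact residual_of_dense_Gδ (hG.preimage (continuous_mixLaw p hp))
      ((dense_isRat_mix p hp).mono fun w hw => hrat _ hw)

end Pool.Agent.Results.MP_80ce29_pr.GenericMirrors
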